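import Pool.Agent.Q161.Interlace
import Pool.Agent.Q161.Insert

/-!
# Interlacing of specialised multivariate Eulerian polynomials

Let `f_k` be the part of `e_n` of the permutations with last value `k`. On the upper half-plane the
values satisfy `0 ≤ Im (f_j conj f_l)` and `0 ≤ Im (z f_l conj f_j)` for `j ≤ l`. This relation is
bilinear and it is preserved by the recursion `F_k = ∑_{j<k} f_j + λ z ∑_{j≥k} f_j`. As
`F_{n+1} = e_n`, one gets `0 < Im (e_{n+1} conj e_n)` on the upper half-plane, which gives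
interlacing of the zeros by following the arguments down to the real line.
-/

set_option autoImplicit false

namespace Pool.Agent.Results.MP_9d2565_co.EulerianInterlacing

open Finset Polynomial Q161.Insert

/-- the descent set of a permutation of `n` letters (positions are counted from `0`) -/
def DES {n : ℕ} (π : Equiv.Perm (Fin n)) : Finset ℕ :=
  (range n).filter (fun k => ∃ h : k + 1 < n, π ⟨k + 1, h⟩ < π ⟨k, by omega⟩)

/-- `e_n(t) = E_n(λ_1 t, …, λ_{n-1} t)`, where `E_n(x) = ∑_π ∏_{k ∈ DES π} x_k`; as positions are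
counted from `0`, `lam k` stands for `λ_{k+1}` -/
noncomputable def e (lam : ℕ → ℝ) (n : ℕ) : ℝ[X] :=
  ∑ π : Equiv.Perm (Fin n), ∏ k ∈ DES π, (C (lam k) * X)

/-- all roots of `f` are real and `≤ 0` -/
def RealNonposRoots (f : ℝ[X]) : Prop :=
  Multiset.card f.roots = f.natDegree ∧ ∀ r ∈ f.roots, r ≤ 0

/-- the roots in decreasing order with multiplicity -/
noncomputable def rootList (f : ℝ[X]) : List ℝ := f.roots.sort (· ≥ ·)

/-- `f ≼ g`: all roots are real and `≤ 0`, and `0 ≥ g_1 ≥ f_1 ≥ g_2 ≥ f_2 ≥ ⋯` -/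
def Interlaces (f g : ℝ[X]) : Prop :=
  RealNonposRoots f ∧ RealNonposRoots g ∧
  (∀ (i : ℕ) (hi : i < (rootList f).length) (hi' : i < (rootList g).length),
    (rootList f)[i] ≤ (rootList g)[i]) ∧
  (∀ (i : ℕ) (hi : i < (rootList f).length) (hi' : i + 1 < (rootList g).length),
    (rootList g)[i + 1] ≤ (rootList f)[i])

/-! ### the relation on complex numbers -/

/-- the relation `a ⊴ b` at the point `z` -/
def R (z a b : ℂ) : Prop := 0 ≤ (b * starRingEnd ℂ a).im ∧ 0 ≤ (z * a * starRingEnd ℂ b).im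

/-- the values `v 0, …, v n` at `z` form an interlacing sequence -/
def Hyp (z : ℂ) (n : ℕ) (v : ℕ → ℂ) : Prop :=
  (∀ k l, k ≤ l → l ≤ n → R z (v l) (v k)) ∧ ∀ k ≤ n, v k ≠ 0

theorem R_add_left {z a a' b : ℂ} (h : R z a b) (h' : R z a' b) : R z (a + a') b := by
  constructor
  · rw [map_add, mul_add, Complex.add_im]; exact add_nonneg h.1 h'.1
  · rw [mul_add, add_mul, Complex.add_im]; exact add_nonneg h.2 h'.2

theorem R_add_right {z a b b' : ℂ} (h : R z a b) (h' : R z a b') : R z a (b + b') := by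
  constructor
  · rw [add_mul, Complex.add_im]; exact add_nonneg h.1 h'.1
  · rw [map_add, mul_add, Complex.add_im]; exact add_nonneg h.2 h'.2

theorem R_zero_left {z b : ℂ} : R z 0 b := by constructor <;> simp
theorem R_zero_right {z a : ℂ} : R z a 0 := by constructor <;> simp

theorem R_sum_left {z b : ℂ} {ι : Type*} (s : Finset ι) (f : ι → ℂ) (h : ∀ i ∈ s, R z (f i) b) :
    R z (∑ i ∈ s, f i) b := by
  classical
  induction s using Finset.induction_on with
  | empty => simpa using R_zero_left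
  | insert i s hi ih =>
    rw [sum_insert hi]
    exact R_add_left (h i (mem_insert_self _ _)) (ih (fun j hj => h j (mem_insert_of_mem hj)))

theorem R_sum_right {z a : ℂ} {ι : Type*} (s : Finset ι) (f : ι → ℂ) (h : ∀ i ∈ s, R z a (f i)) :
    R z a (∑ i ∈ s, f i) := by
  classical
  induction s using Finset.induction_on with
  | empty => simpa using R_zero_right
  | insert i s hi ih =>
    rw [sum_insert hi]
    exact R_add_right (h i (mem_insert_self _ _)) (ih (fun j hj => h j (mem_insert_of_mem hj)))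

/-- sums of values of an interlacing sequence do not vanish -/
theorem sum_ne_zero {z : ℂ} (hz : 0 < z.im) {n : ℕ} {v : ℕ → ℂ} (h : Hyp z n v) {k m : ℕ}
    (hk : k ≤ m) (hm : m ≤ n) : ∑ j ∈ Icc k m, v j ≠ 0 := by
  intro h0
  have h1 : R z (v m) (∑ j ∈ Ico k m, v j) := by
    apply R_sum_right
    intro j hj
    rw [mem_Ico] at hj
    exact h.1 j m hj.2.le hm
  have h2 : ∑ j ∈ Ico k m, v j = - v m := by
    have : ∑ j ∈ Icc k m, v j = ∑ j ∈ Ico k m, v j + v m := by
      rw [← Finset.Ico_insert_right hk, sum_insert (by simp)]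
      ring
    rw [this] at h0
    exact eq_neg_of_add_eq_zero_left h0
  rw [h2] at h1
  have h3 := h1.2
  rw [map_neg, mul_neg, mul_assoc, Complex.mul_conj, Complex.neg_im, Complex.im_mul_ofReal] at h3
  have h4 : 0 < Complex.normSq (v m) := Complex.normSq_pos.2 (h.2 m hm)
  have := mul_pos hz h4
  linarith

/-- one step of the recursion -/
def step (z : ℂ) (c : ℝ) (n : ℕ) (v : ℕ → ℂ) (x : ℕ) : ℂ :=
  ∑ j ∈ range x, v j + c * z * ∑ j ∈ Icc x n, v j

theorem step_split {z : ℂ} {c : ℝ} {n : ℕ} {v : ℕ → ℂ} {k l : ℕ} (hkl : k ≤ l) (hl : l ≤ n + 1) :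
    step z c n v l = (∑ j ∈ range k, v j + c * z * ∑ j ∈ Icc l n, v j) + ∑ j ∈ Ico k l, v j ∧
    step z c n v k = (∑ j ∈ range k, v j + c * z * ∑ j ∈ Icc l n, v j) +
      c * z * ∑ j ∈ Ico k l, v j := by
  constructor
  · unfold step
    have : ∑ j ∈ range l, v j = ∑ j ∈ range k, v j + ∑ j ∈ Ico k l, v j := by
      rw [Finset.sum_range_add_sum_Ico _ hkl]
    rw [this]; ring
  · unfold step
    have : ∑ j ∈ Icc k n, v j = ∑ j ∈ Ico k l, v j + ∑ j ∈ Icc l n, v j := by
      rw [← sum_union]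
      · congr 1
        ext j
        rw [mem_union, mem_Icc, mem_Ico, mem_Icc]
        omega
      · rw [disjoint_left]
        intro j h1 h2
        rw [mem_Ico] at h1
        rw [mem_Icc] at h2
        omega
    rw [this]; ring

theorem im_mul_conj_swap (a b : ℂ) : (a * starRingEnd ℂ b).im = - (b * starRingEnd ℂ a).im := by
  simp only [Complex.mul_im, Complex.conj_re, Complex.conj_im]; ring

theorem hyp_step {z : ℂ} (hz : 0 < z.im) {c : ℝ} (hc : 0 < c) {n : ℕ} {v : ℕ → ℂ}
    (h : Hyp z n v) : Hyp z (n + 1) (step z c n v) ∧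
      ∀ k ≤ n, 0 < (step z c n v k * starRingEnd ℂ (step z c n v (n + 1))).im := by
  -- bilinear computations
  have key : ∀ k l, k ≤ l → l ≤ n + 1 →
      c * z.im * Complex.normSq (∑ j ∈ Ico k l, v j) ≤
        (step z c n v k * starRingEnd ℂ (step z c n v l)).im ∧
      0 ≤ (z * step z c n v l * starRingEnd ℂ (step z c n v k)).im := by
    intro k l hkl hl
    obtain ⟨e1, e2⟩ := step_split (z := z) (c := c) (v := v) hkl hl
    set A := ∑ j ∈ range k, v j with hA
    set B := ∑ j ∈ Ico k l, v j with hB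
    set D := ∑ j ∈ Icc l n, v j with hD
    have hBA : R z B A := by
      apply R_sum_left
      intro i hi
      apply R_sum_right
      intro j hj
      rw [mem_Ico] at hi
      rw [mem_range] at hj
      exact h.1 j i (by omega) (by omega)
    have hDB : R z D B := by
      apply R_sum_left
      intro i hi
      apply R_sum_right
      intro j hj
      rw [mem_Icc] at hi
      rw [mem_Ico] at hj
      exact h.1 j i (by omega) (by omega)
    rw [e1, e2]
    obtain ⟨p1, p2⟩ := hBA
    obtain ⟨q1, q2⟩ := hDB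
    simp only [Complex.mul_im, Complex.mul_re, Complex.add_im, Complex.add_re, Complex.conj_re,
      Complex.conj_im, map_add, map_mul, Complex.conj_ofReal, Complex.ofReal_re, Complex.ofReal_im,
      Complex.normSq_apply] at *
    have hc2 : 0 < c * c := mul_pos hc hc
    have hzz : 0 ≤ z.re * z.re + z.im * z.im := add_nonneg (mul_self_nonneg _) (mul_self_nonneg _)
    constructor
    · have t1 := mul_nonneg hc.le p2
      have t2 := mul_nonneg hc.le q2
      have t3 := mul_nonneg (mul_nonneg hc2.le hzz) q1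
      nlinarith [t1, t2, t3, p1]
    · have s1 : 0 ≤ z.im * ((A.re + c * (z.re * D.re - z.im * D.im)) ^ 2 +
          (A.im + c * (z.re * D.im + z.im * D.re)) ^ 2) := mul_nonneg hz.le (by positivity)
      have t1 := mul_nonneg (mul_nonneg hc.le hzz) p1
      have t2 := mul_nonneg (mul_nonneg (mul_nonneg hc.le hzz) hc.le) q2
      have t3 := mul_nonneg (mul_nonneg hc.le hzz) q1
      nlinarith [s1, t1, t2, t3, p2]
  have hlast : ∀ k ≤ n, 0 < (step z c n v k * starRingEnd ℂ (step z c n v (n + 1))).im := by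
    intro k hk
    refine lt_of_lt_of_le ?_ (key k (n + 1) (by omega) (le_refl _)).1
    have hne : ∑ j ∈ Ico k (n + 1), v j ≠ 0 := by
      have : Ico k (n + 1) = Icc k n := by ext j; rw [mem_Ico, mem_Icc]; omega
      rw [this]
      exact sum_ne_zero hz h hk (le_refl n)
    have := Complex.normSq_pos.2 hne
    positivity
  refine ⟨⟨?_, ?_⟩, hlast⟩
  · intro k l hkl hl
    obtain ⟨h1, h2⟩ := key k l hkl hl
    refine ⟨le_trans ?_ h1, h2⟩
    have := Complex.normSq_nonneg (∑ j ∈ Ico k l, v j)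
    positivity
  · intro k hk
    rcases Nat.lt_or_eq_of_le hk with h1 | h1
    · intro h0
      have := hlast k (by omega)
      rw [h0, zero_mul] at this
      exact lt_irrefl _ this
    · rw [h1]
      unfold step
      have e1 : Icc (n + 1) n = ∅ := by
        ext j; rw [mem_Icc]; simp
      have e2 : range (n + 1) = Icc 0 n := by
        ext j; rw [mem_range, mem_Icc]; omega
      rw [e1, sum_empty, mul_zero, add_zero, e2]
      exact sum_ne_zero hz h (Nat.zero_le n) (le_refl n)

/-! ### the recursion for permutations -/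

/-- the weight of a permutation at `z` -/
noncomputable def w (lam : ℕ → ℝ) (z : ℂ) {n : ℕ} (π : Equiv.Perm (Fin n)) : ℂ :=
  ∏ k ∈ DES π, ((lam k : ℂ) * z)

/-- the value at `z` of the part of `e_{n+1}` with last value `k` -/
noncomputable def f (lam : ℕ → ℝ) (z : ℂ) (n k : ℕ) : ℂ :=
  ∑ π : Equiv.Perm (Fin (n + 1)), if (π (Fin.last n) : ℕ) = k then w lam z π else 0

theorem aeval_e (lam : ℕ → ℝ) (z : ℂ) (n : ℕ) :
    aeval z (e lam n) = ∑ π : Equiv.Perm (Fin n), w lam z π := by
  unfold e w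
  rw [map_sum]
  refine sum_congr rfl (fun π _ => ?_)
  rw [map_prod]
  refine prod_congr rfl (fun k _ => ?_)
  rw [map_mul, aeval_C, aeval_X]
  rfl

theorem aeval_e_eq_sum (lam : ℕ → ℝ) (z : ℂ) (n : ℕ) :
    aeval z (e lam (n + 1)) = ∑ k ∈ range (n + 1), f lam z n k := by
  rw [aeval_e]
  unfold f
  rw [sum_comm]
  refine sum_congr rfl (fun π _ => ?_)
  rw [sum_ite_eq, if_pos]
  rw [mem_range]
  exact (π (Fin.last n)).2

theorem DES_ins {n : ℕ} (x : Fin (n + 2)) (τ : Equiv.Perm (Fin (n + 1))) :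
    DES (ins x τ) = if (x : ℕ) ≤ τ (Fin.last n) then insert n (DES τ) else DES τ := by
  have hlt : ∀ k, k + 1 < n + 1 → ((∃ h : k + 1 < n + 2, (ins x τ) ⟨k + 1, h⟩ < (ins x τ) ⟨k, by omega⟩) ↔
      (∃ h : k + 1 < n + 1, τ ⟨k + 1, h⟩ < τ ⟨k, by omega⟩)) := by
    intro k hk
    have e1 := ins_castSucc x τ ⟨k, by omega⟩
    have e2 := ins_castSucc x τ ⟨k + 1, by omega⟩
    have e3 : (⟨k, by omega⟩ : Fin (n + 2)) = (⟨k, by omega⟩ : Fin (n + 1)).castSucc := rfl
    have e4 : (⟨k + 1, by omega⟩ : Fin (n + 2)) = (⟨k + 1, by omega⟩ : Fin (n + 1)).castSucc := rfl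
    constructor
    · rintro ⟨_, h⟩
      rw [e3, e4, e1, e2, Fin.succAbove_lt_succAbove_iff] at h
      exact ⟨hk, h⟩
    · rintro ⟨_, h⟩
      refine ⟨by omega, ?_⟩
      rw [e3, e4, e1, e2, Fin.succAbove_lt_succAbove_iff]
      exact h
  have hn : (∃ h : n + 1 < n + 2, (ins x τ) ⟨n + 1, h⟩ < (ins x τ) ⟨n, by omega⟩) ↔
      (x : ℕ) ≤ τ (Fin.last n) := by
    have e1 : (ins x τ) ⟨n + 1, by omega⟩ = x := ins_last x τ
    have e2 := ins_val_lt x τ n (by omega)
    have e3 : τ ⟨n, by omega⟩ = τ (Fin.last n) := rfl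
    constructor
    · rintro ⟨_, h⟩
      rw [e1, Fin.lt_def, e2, e3] at h
      split_ifs at h <;> omega
    · intro h
      refine ⟨by omega, ?_⟩
      rw [e1, Fin.lt_def, e2, e3]
      split_ifs <;> omega
  ext k
  unfold DES
  rw [mem_filter, mem_range]
  split_ifs with hx
  · rw [mem_insert, mem_filter, mem_range]
    constructor
    · rintro ⟨h1, h2⟩
      by_cases hk : k = n
      · left; exact hk
      · right
        obtain ⟨h3, _⟩ := id h2
        exact ⟨by omega, (hlt k (by omega)).1 h2⟩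
    · rintro (rfl | ⟨h1, h2⟩)
      · exact ⟨by omega, hn.2 hx⟩
      · obtain ⟨h3, _⟩ := id h2
        exact ⟨by omega, (hlt k h3).2 h2⟩
  · rw [mem_filter, mem_range]
    constructor
    · rintro ⟨h1, h2⟩
      by_cases hk : k = n
      · subst hk
        exact absurd (hn.1 h2) hx
      · obtain ⟨h3, _⟩ := id h2
        exact ⟨by omega, (hlt k (by omega)).1 h2⟩
    · rintro ⟨h1, h2⟩
      obtain ⟨h3, _⟩ := id h2
      exact ⟨by omega, (hlt k h3).2 h2⟩

theorem not_mem_DES {n : ℕ} (τ : Equiv.Perm (Fin (n + 1))) : n ∉ DES τ := by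
  unfold DES
  rw [mem_filter]
  rintro ⟨_, h, _⟩
  omega

theorem f_rec (lam : ℕ → ℝ) (z : ℂ) (n x : ℕ) (hx : x ≤ n + 1) :
    f lam z (n + 1) x = step z (lam n) n (f lam z n) x := by
  have h1 : f lam z (n + 1) x = ∑ τ : Equiv.Perm (Fin (n + 1)), w lam z τ *
      (if x ≤ (τ (Fin.last n) : ℕ) then (lam n : ℂ) * z else 1) := by
    unfold f
    rw [sum_ins]
    refine sum_congr rfl (fun τ _ => ?_)
    rw [sum_eq_single (⟨x, by omega⟩ : Fin (n + 2))]
    · rw [ins_last, if_pos rfl]
      unfold w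
      rw [DES_ins]
      split_ifs with h
      · rw [prod_insert (not_mem_DES τ), mul_comm]
      · rw [mul_one]
    · intro y _ hy
      rw [ins_last, if_neg]
      intro h
      exact hy (Fin.ext h)
    · intro h; exact absurd (mem_univ _) h
  rw [h1]
  unfold step f
  have h2 : ∑ j ∈ range x, ∑ π : Equiv.Perm (Fin (n + 1)),
      (if (π (Fin.last n) : ℕ) = j then w lam z π else 0) =
      ∑ π : Equiv.Perm (Fin (n + 1)), if (π (Fin.last n) : ℕ) < x then w lam z π else 0 := by
    rw [sum_comm]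
    refine sum_congr rfl (fun π _ => ?_)
    rw [sum_ite_eq]
    simp only [mem_range]
  have h3 : ∑ j ∈ Icc x n, ∑ π : Equiv.Perm (Fin (n + 1)),
      (if (π (Fin.last n) : ℕ) = j then w lam z π else 0) =
      ∑ π : Equiv.Perm (Fin (n + 1)), if x ≤ (π (Fin.last n) : ℕ) then w lam z π else 0 := by
    rw [sum_comm]
    refine sum_congr rfl (fun π _ => ?_)
    rw [sum_ite_eq]
    simp only [mem_Icc]
    have := (π (Fin.last n)).2
    by_cases h : x ≤ (π (Fin.last n) : ℕ)
    · rw [if_pos ⟨h, by omega⟩, if_pos h]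
    · rw [if_neg (fun h' => h h'.1), if_neg h]
  rw [h2, h3, mul_sum, ← sum_add_distrib]
  refine sum_congr rfl (fun π _ => ?_)
  by_cases h : x ≤ (π (Fin.last n) : ℕ)
  · rw [if_pos h, if_neg (by omega), if_pos h]; ring
  · rw [if_neg h, if_pos (by omega), if_neg h]; ring

theorem step_congr {z : ℂ} {c : ℝ} {n : ℕ} {v v' : ℕ → ℂ} (h : ∀ j ≤ n, v j = v' j) {x : ℕ}
    (hx : x ≤ n + 1) : step z c n v x = step z c n v' x := by
  unfold step
  rw [sum_congr rfl (fun j hj => h j (by rw [mem_range] at hj; omega)),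
    sum_congr rfl (fun j hj => h j (by rw [mem_Icc] at hj; omega))]

theorem hyp_f {lam : ℕ → ℝ} (hl : ∀ i, 0 < lam i) {z : ℂ} (hz : 0 < z.im) (n : ℕ) :
    Hyp z n (f lam z n) := by
  induction n with
  | zero =>
    have h0 : f lam z 0 0 = 1 := by
      unfold f w
      have hd : ∀ π : Equiv.Perm (Fin (0 + 1)), DES π = ∅ := by
        intro π
        ext k
        unfold DES
        rw [mem_filter]
        constructor
        · rintro ⟨_, h, _⟩; omega
        · intro h; simp at h
      simp [hd]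
    constructor
    · intro k l hkl hl
      obtain rfl : l = 0 := by omega
      obtain rfl : k = 0 := by omega
      rw [h0]
      constructor
      · simp
      · simp; exact hz.le
    · intro k hk
      obtain rfl : k = 0 := by omega
      rw [h0]; exact one_ne_zero
  | succ n ih =>
    have h1 := (hyp_step hz (hl n) ih).1
    constructor
    · intro k l hkl hln
      rw [f_rec lam z n k (by omega), f_rec lam z n l hln]
      exact h1.1 k l hkl hln
    · intro k hk
      rw [f_rec lam z n k hk]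
      exact h1.2 k hk

theorem f_top (lam : ℕ → ℝ) (z : ℂ) (n : ℕ) :
    f lam z (n + 1) (n + 1) = aeval z (e lam (n + 1)) := by
  rw [f_rec lam z n (n + 1) (le_refl _), aeval_e_eq_sum]
  unfold step
  have : Icc (n + 1) n = ∅ := by ext j; rw [mem_Icc]; simp
  rw [this, sum_empty, mul_zero, add_zero]

/-- the sign condition -/
theorem im_pos {lam : ℕ → ℝ} (hl : ∀ i, 0 < lam i) {z : ℂ} (hz : 0 < z.im) (n : ℕ) :
    0 < (aeval z (e lam (n + 2)) * starRingEnd ℂ (aeval z (e lam (n + 1)))).im := by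
  have h1 := (hyp_step hz (hl n) (hyp_f hl hz n)).2
  rw [aeval_e_eq_sum, ← f_top, sum_mul, Complex.im_sum, sum_range_succ]
  have h2 : (f lam z (n + 1) (n + 1) * starRingEnd ℂ (f lam z (n + 1) (n + 1))).im = 0 := by
    rw [Complex.mul_conj]; exact Complex.ofReal_im _
  rw [h2, add_zero]
  apply sum_pos
  · intro k hk
    rw [mem_range] at hk
    rw [f_rec lam z n k (by omega), f_rec lam z n (n + 1) (le_refl _)]
    exact h1 k (by omega)
  · exact ⟨0, by simp⟩

/-! ### degrees and coefficients -/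

theorem prod_eq (lam : ℕ → ℝ) (s : Finset ℕ) :
    ∏ k ∈ s, (C (lam k) * X) = C (∏ k ∈ s, lam k) * X ^ s.card := by
  rw [prod_mul_distrib, prod_const, map_prod]

theorem card_DES_le {n : ℕ} (π : Equiv.Perm (Fin (n + 1))) : (DES π).card ≤ n := by
  have : DES π ⊆ range n := by
    intro k hk
    unfold DES at hk
    rw [mem_filter] at hk
    obtain ⟨_, h, _⟩ := hk
    rw [mem_range]; omega
  simpa using card_le_card this

theorem DES_rev (n : ℕ) : (DES (Fin.revPerm : Equiv.Perm (Fin (n + 1)))).card = n := by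
  have : DES (Fin.revPerm : Equiv.Perm (Fin (n + 1))) = range n := by
    ext k
    unfold DES
    rw [mem_filter, mem_range, mem_range]
    constructor
    · rintro ⟨_, h, _⟩; omega
    · intro h
      refine ⟨by omega, by omega, ?_⟩
      rw [Fin.revPerm_apply, Fin.revPerm_apply, Fin.rev_lt_rev, Fin.lt_def]
      simp
  rw [this, card_range]

theorem coeff_e (lam : ℕ → ℝ) (n m : ℕ) : (e lam n).coeff m =
    ∑ π : Equiv.Perm (Fin n), if m = (DES π).card then ∏ k ∈ DES π, lam k else 0 := by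
  unfold e
  rw [finsetSum_coeff]
  refine sum_congr rfl (fun π _ => ?_)
  rw [prod_eq, coeff_C_mul, coeff_X_pow]
  split_ifs <;> simp

theorem coeff_nonneg {lam : ℕ → ℝ} (hl : ∀ i, 0 < lam i) (n m : ℕ) : 0 ≤ (e lam n).coeff m := by
  rw [coeff_e]
  apply sum_nonneg
  intro π _
  split_ifs
  · exact prod_nonneg (fun k _ => (hl k).le)
  · exact le_refl _

theorem coeff_top_pos {lam : ℕ → ℝ} (hl : ∀ i, 0 < lam i) (n : ℕ) :
    0 < (e lam (n + 1)).coeff n := by
  rw [coeff_e]
  apply sum_pos'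
  · intro π _
    split_ifs
    · exact prod_nonneg (fun k _ => (hl k).le)
    · exact le_refl _
  · refine ⟨Fin.revPerm, mem_univ _, ?_⟩
    rw [if_pos (DES_rev n).symm]
    exact prod_pos (fun k _ => hl k)

theorem coeff_zero_pos {lam : ℕ → ℝ} (hl : ∀ i, 0 < lam i) (n : ℕ) :
    0 < (e lam (n + 1)).coeff 0 := by
  rw [coeff_e]
  apply sum_pos'
  · intro π _
    split_ifs
    · exact prod_nonneg (fun k _ => (hl k).le)
    · exact le_refl _
  · refine ⟨1, mem_univ _, ?_⟩
    have : DES (1 : Equiv.Perm (Fin (n + 1))) = ∅ := by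
      ext k
      unfold DES
      rw [mem_filter]
      constructor
      · rintro ⟨_, h, h'⟩
        rw [Fin.lt_def] at h'
        simp at h'
      · intro h; simp at h
    rw [this]; simp

theorem natDegree_e {lam : ℕ → ℝ} (hl : ∀ i, 0 < lam i) (n : ℕ) :
    (e lam (n + 1)).natDegree = n := by
  apply le_antisymm
  · rw [natDegree_le_iff_coeff_eq_zero]
    intro m hm
    rw [coeff_e]
    apply sum_eq_zero
    intro π _
    rw [if_neg]
    have := card_DES_le π
    omega
  · exact le_natDegree_of_ne_zero (coeff_top_pos hl n).ne'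

theorem leadingCoeff_pos {lam : ℕ → ℝ} (hl : ∀ i, 0 < lam i) (n : ℕ) :
    0 < (e lam (n + 1)).leadingCoeff := by
  unfold leadingCoeff
  rw [natDegree_e hl n]
  exact coeff_top_pos hl n

theorem roots_nonpos {lam : ℕ → ℝ} (hl : ∀ i, 0 < lam i) (n : ℕ) :
    ∀ r ∈ (e lam (n + 1)).roots, r ≤ 0 := by
  intro r hr
  by_contra hc
  push Not at hc
  have hne : e lam (n + 1) ≠ 0 := by
    intro h
    have := coeff_zero_pos hl n
    rw [h] at this
    simp at this
  rw [mem_roots hne, IsRoot.def, eval_eq_sum_range] at hr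
  have : 0 < ∑ i ∈ range ((e lam (n + 1)).natDegree + 1), (e lam (n + 1)).coeff i * r ^ i := by
    apply sum_pos'
    · intro i _
      exact mul_nonneg (coeff_nonneg hl _ _) (by positivity)
    · exact ⟨0, by simp, by rw [pow_zero, mul_one]; exact coeff_zero_pos hl n⟩
  linarith

/-- Whatever the positive reals `λ_1, λ_2, …`, `e_{n-1} ≼ e_n` holds for each `n ≥ 2`; moreover
`e_n` has degree `n - 1`. -/
theorem result : ∀ lam : ℕ → ℝ, (∀ i, 0 < lam i) → ∀ n : ℕ, 2 ≤ n →
    (e lam (n - 1)).natDegree = n - 2 ∧ (e lam n).natDegree = n - 1 ∧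
      Interlaces (e lam (n - 1)) (e lam n) := by
  intro lam hl n hn
  obtain ⟨m, rfl⟩ : ∃ m, n = m + 2 := ⟨n - 2, by omega⟩
  have e1 : m + 2 - 1 = m + 1 := by omega
  have e2 : m + 2 - 2 = m := by omega
  rw [e1, e2]
  refine ⟨natDegree_e hl m, natDegree_e hl (m + 1), ?_⟩
  have hfn : ∀ z : ℂ, 0 < z.im → aeval z (e lam (m + 1)) ≠ 0 := by
    intro z hz
    rw [← f_top]
    exact (hyp_f hl hz (m + 1)).2 _ (le_refl _)
  obtain ⟨h1, h2, h3⟩ := Q161.Interlace.interlace (f := e lam (m + 1)) (g := e lam (m + 2))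
    (leadingCoeff_pos hl m) (leadingCoeff_pos hl (m + 1))
    (by rw [natDegree_e hl m, natDegree_e hl (m + 1)]) hfn (fun z hz => im_pos hl hz m)
  exact ⟨⟨h1, roots_nonpos hl m⟩, ⟨h2, roots_nonpos hl (m + 1)⟩, h3⟩

end Pool.Agent.Results.MP_9d2565_co.EulerianInterlacing
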